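import Pool.Agent.Helper591.Kneser

/-!
# Consequences of Kneser's theorem for cyclic groups
-/

set_option linter.unusedSectionVars false

namespace Pool.Agent.Q248.KN

open Finset Pool.Agent.Helper591.Kneser
open scoped Pointwise

variable {G : Type*} [AddCommGroup G] [Fintype G] [DecidableEq G]

/-- a set is a union of cosets of every subgroup of its stabilizer -/
theorem card_dvd_of_le_stab {H : AddSubgroup G} {C : Finset G} (h : H ≤ stab C) :
    (els H).card ∣ C.card := by
  classical
  have hf : ∀ q ∈ C.image (fun x => (QuotientAddGroup.mk x : G ⧸ H)),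
      (C.filter (fun x => (QuotientAddGroup.mk x : G ⧸ H) = q)).card = (els H).card := by
    intro q hq
    rw [mem_image] at hq
    obtain ⟨x, hx, rfl⟩ := hq
    have : C.filter (fun y => (QuotientAddGroup.mk y : G ⧸ H) = QuotientAddGroup.mk x) =
        (els H).image (fun h => h + x) := by
      ext y
      rw [mem_filter, mem_image]
      constructor
      · rintro ⟨hy, hyx⟩
        rw [QuotientAddGroup.eq] at hyx
        refine ⟨y - x, ?_, by abel⟩
        rw [mem_els]
        have := H.neg_mem hyx
        rw [show y - x = -(-y + x) by abel]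
        exact this
      · rintro ⟨g, hg, rfl⟩
        rw [mem_els] at hg
        refine ⟨(h hg x).2 hx, ?_⟩
        rw [QuotientAddGroup.eq]
        rw [show -(g + x) + x = -g by abel]
        exact H.neg_mem hg
    rw [this, card_image_of_injective _ (add_left_injective x)]
  rw [card_eq_sum_card_image (fun x => (QuotientAddGroup.mk x : G ⧸ H)) C, sum_congr rfl hf,
    sum_const, smul_eq_mul]
  exact Dvd.intro_left _ rfl

theorem le_stab_add_els (H : AddSubgroup G) (A : Finset G) : H ≤ stab (A + els H) := by
  intro g hg
  apply mem_stab_of_forall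
  intro x hx
  rw [Finset.mem_add] at hx ⊢
  obtain ⟨a, ha, b, hb, rfl⟩ := hx
  rw [mem_els] at hb
  exact ⟨a, ha, g + b, mem_els.2 (H.add_mem hg hb), by abel⟩

theorem subset_add_els (H : AddSubgroup G) (A : Finset G) : A ⊆ A + els H := by
  intro a ha
  rw [Finset.mem_add]
  exact ⟨a, ha, 0, mem_els.2 H.zero_mem, add_zero a⟩

/-- Kneser's theorem in its full form -/
theorem kneser_full {A B : Finset G} (hA : A.Nonempty) (hB : B.Nonempty) :
    (A + els (stab (A + B))).card + (B + els (stab (A + B))).card ≤
      (A + B).card + (els (stab (A + B))).card := by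
  set H := stab (A + B) with hH
  have hH1 : (els H).Nonempty := ⟨0, mem_els.2 H.zero_mem⟩
  have h1 : A + els H + (B + els H) = A + B := by
    apply Finset.Subset.antisymm
    · intro x hx
      rw [Finset.mem_add] at hx
      obtain ⟨y, hy, z, hz, rfl⟩ := hx
      rw [Finset.mem_add] at hy hz
      obtain ⟨a, ha, g, hg, rfl⟩ := hy
      obtain ⟨b, hb, g', hg', rfl⟩ := hz
      rw [mem_els] at hg hg'
      have h2 : g + g' ∈ stab (A + B) := H.add_mem hg hg'
      have h3 := (h2 (a + b)).2 (Finset.add_mem_add ha hb)
      rw [show a + g + (b + g') = g + g' + (a + b) by abel]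
      exact h3
    · exact Finset.add_subset_add (subset_add_els H A) (subset_add_els H B)
  have h2 := kneser (hA.add hH1) (hB.add hH1)
  rw [h1] at h2
  exact h2

/-- the order of the group is a multiple of the order of a subgroup -/
theorem card_els_dvd (H : AddSubgroup G) : (els H).card ∣ Fintype.card G := by
  have : H ≤ stab (univ : Finset G) := by
    intro g _
    exact mem_stab_of_forall (fun x _ => mem_univ _)
  exact card_dvd_of_le_stab this

/-- a set disjoint from a periodic set stays disjoint after adding the subgroup -/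
theorem disjoint_add_els {H : AddSubgroup G} {C A : Finset G} (h : H ≤ stab C)
    (hd : Disjoint C A) : Disjoint C (A + els H) := by
  rw [Finset.disjoint_left] at hd ⊢
  intro x hx hxA
  rw [Finset.mem_add] at hxA
  obtain ⟨a, ha, g, hg, rfl⟩ := hxA
  rw [mem_els] at hg
  have := (h hg a).1 (by rw [add_comm]; exact hx)
  exact hd this ha

/-- negation of `A + H` -/
theorem neg_add_els (H : AddSubgroup G) (A : Finset G) : -(A + els H) = (-A) + els H := by
  ext x
  rw [Finset.mem_neg', Finset.mem_add, Finset.mem_add]
  constructor
  · rintro ⟨a, ha, g, hg, e⟩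
    rw [mem_els] at hg
    refine ⟨-a, by rw [Finset.mem_neg', neg_neg]; exact ha, -g, mem_els.2 (H.neg_mem hg), ?_⟩
    rw [← neg_add, e, neg_neg]
  · rintro ⟨a, ha, g, hg, e⟩
    rw [mem_els] at hg
    rw [Finset.mem_neg'] at ha
    refine ⟨-a, ha, -g, mem_els.2 (H.neg_mem hg), ?_⟩
    rw [← neg_add, e]

/-- Iterated Kneser theorem. -/
theorem kneser_sm_full {A : Finset G} (hA : A.Nonempty) (H : AddSubgroup G) (k : ℕ) (hk : 1 ≤ k)
    (hH : H = stab (sm k A)) :
    k * (A + els H).card + (els H).card ≤ (sm k A).card + k * (els H).card := by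
  -- all shorter sums of `A + H` are `H`-periodic, with stabilizer exactly `H`
  set A' := A + els H with hA'
  have hH1 : (els H).Nonempty := ⟨0, mem_els.2 H.zero_mem⟩
  have hA'n : A'.Nonempty := hA.add hH1
  have key : ∀ j, 1 ≤ j → sm j A' = sm j A + els H := by
    intro j hj
    induction j, hj using Nat.le_induction with
    | base => rw [sm_one, sm_one]
    | succ j hj ih =>
      rw [sm_succ, sm_succ, ih, hA']
      have : els H + els H = els H := by
        ext x
        rw [Finset.mem_add, mem_els]
        constructor
        · rintro ⟨a, ha, b, hb, rfl⟩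
          exact H.add_mem (mem_els.1 ha) (mem_els.1 hb)
        · intro hx
          exact ⟨x, mem_els.2 hx, 0, mem_els.2 H.zero_mem, add_zero x⟩
      calc sm j A + els H + (A + els H) = sm j A + A + (els H + els H) := by
            rw [add_add_add_comm]
        _ = _ := by rw [this]
  have hle : ∀ j, 1 ≤ j → j ≤ k → stab (sm j A') = H := by
    intro j hj hjk
    apply le_antisymm
    · have h1 : stab (sm j A') ≤ stab (sm k A') := stab_sm_mono hjk A'
      have h2 : sm k A' = sm k A := by
        rw [key k hk]
        apply Finset.Subset.antisymm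
        · intro x hx
          rw [Finset.mem_add] at hx
          obtain ⟨a, ha, g, hg, rfl⟩ := hx
          rw [mem_els, hH] at hg
          rw [add_comm]
          exact (hg a).2 ha
        · exact subset_add_els H _
      rw [h2, ← hH] at h1
      exact h1
    · rw [key j hj]
      exact le_stab_add_els H _
  have main : ∀ j, 1 ≤ j → j ≤ k →
      j * A'.card + (els H).card ≤ (sm j A').card + j * (els H).card := by
    intro j hj
    induction j, hj using Nat.le_induction with
    | base => intro _; rw [sm_one, one_mul, one_mul]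
    | succ j hj ih =>
      intro hjk
      have h1 := ih (by omega)
      have h2 := kneser (sm_nonempty hA'n j) hA'n
      rw [← sm_succ, hle (j + 1) (by omega) hjk] at h2
      rw [Nat.succ_mul, Nat.succ_mul]
      omega
  have h3 := main k hk le_rfl
  have h4 : sm k A' = sm k A := by
    rw [key k hk]
    apply Finset.Subset.antisymm
    · intro x hx
      rw [Finset.mem_add] at hx
      obtain ⟨a, ha, g, hg, rfl⟩ := hx
      rw [mem_els, hH] at hg
      rw [add_comm]
      exact (hg a).2 ha
    · exact subset_add_els H _
  rw [h4] at h3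
  exact h3

/-- in a group of odd order `x = -x` only for `x = 0` -/
theorem eq_zero_of_neg_eq (hodd : Odd (Fintype.card G)) {x : G} (hx : -x = x) : x = 0 := by
  have h1 : (2 : ℕ) • x = 0 := by
    rw [two_nsmul]
    nth_rewrite 1 [← hx]
    exact neg_add_cancel x
  have h2 : (Fintype.card G) • x = 0 := card_nsmul_eq_zero
  have h3 : addOrderOf x ∣ 2 := addOrderOf_dvd_of_nsmul_eq_zero h1
  have h4 : addOrderOf x ∣ Fintype.card G := addOrderOf_dvd_of_nsmul_eq_zero h2
  have h5 : addOrderOf x ∣ Nat.gcd 2 (Fintype.card G) := Nat.dvd_gcd h3 h4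
  have h6 : Nat.gcd 2 (Fintype.card G) = 1 := by
    rw [← Nat.coprime_iff_gcd_eq_one]
    exact (Nat.coprime_two_left).2 hodd
  rw [h6, Nat.dvd_one, AddMonoid.addOrderOf_eq_one_iff] at h5
  exact h5

/-- In a group of odd order a symmetric set without `0` has even size. -/
theorem even_card_of_symm (hodd : Odd (Fintype.card G)) {B : Finset G} (hB : ∀ x ∈ B, -x ∈ B)
    (h0 : (0 : G) ∉ B) : Even B.card := by
  have h1 : ∑ x ∈ B, (1 : ZMod 2) = 0 := by
    apply Finset.sum_involution (fun x _ => -x)
    · intro x _
      decide
    · intro x hx _ he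
      exact h0 ((eq_zero_of_neg_eq hodd he) ▸ hx)
    · intro x _
      exact neg_neg x
    · intro x hx
      exact hB x hx
  rw [sum_const, nsmul_eq_mul, mul_one] at h1
  exact (ZMod.natCast_eq_zero_iff_even).1 h1

end Pool.Agent.Q248.KN
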