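import Pool.Agent.Q248.KN.Basic

/-!
# The signed `[0,s]`-critical number of cyclic groups
-/

namespace Pool.Agent.Q248.KN

open Finset Pool.Agent.Helper591.Kneser
open scoped Pointwise

/-- The `h`-fold signed sumset `h_±A` of a finite set `A`: all `∑ λ_a a` with `∑ |λ_a| = h`. -/
def signed {n : ℕ} (h : ℕ) (A : Finset (ZMod n)) : Set (ZMod n) :=
  {x | ∃ l : ZMod n → ℤ, ∑ a ∈ A, (l a).natAbs = h ∧ x = ∑ a ∈ A, (l a) • a}

/-- `[0,s]_±A`: the union of the `h_±A` over `0 ≤ h ≤ s`. -/
def signedUpTo {n : ℕ} (s : ℕ) (A : Finset (ZMod n)) : Set (ZMod n) :=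
  ⋃ h ∈ Set.Icc 0 s, signed h A

/-- `χ_±(ℤ_n, [0,s])`: the least `m` such that `[0,s]_±A = ℤ_n` for every `A` with `|A| ≥ m`. -/
noncomputable def chi (n s : ℕ) : ℕ :=
  sInf {m : ℕ | ∀ A : Finset (ZMod n), m ≤ A.card → signedUpTo s A = Set.univ}

/-- `v_±(n, h)`: the maximum of `(2 ⌊(d - 2) / (2 h)⌋ + 1) (n / d)` over the divisors `d` of `n`
(with `n = d e`). -/
noncomputable def vpm (n h : ℕ) : ℤ :=
  sSup {x : ℤ | ∃ d e : ℕ, d * e = n ∧ x = (2 * (((d : ℤ) - 2) / (2 * (h : ℤ))) + 1) * (e : ℤ)}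

theorem mem_signedUpTo {n s : ℕ} {A : Finset (ZMod n)} {x : ZMod n} : x ∈ signedUpTo s A ↔
    ∃ l : ZMod n → ℤ, ∑ a ∈ A, (l a).natAbs ≤ s ∧ x = ∑ a ∈ A, (l a) • a := by
  unfold signedUpTo signed
  simp only [Set.mem_iUnion]
  constructor
  · rintro ⟨h, hh, l, hl, hx⟩
    exact ⟨l, hl.le.trans hh.2, hx⟩
  · rintro ⟨l, hl, hx⟩
    exact ⟨_, ⟨Nat.zero_le _, hl⟩, l, rfl, hx⟩

theorem sm_subset {n : ℕ} [NeZero n] (A : Finset (ZMod n)) (s : ℕ) :
    ((sm s (A ∪ (-A) ∪ {0}) : Finset (ZMod n)) : Set (ZMod n)) ⊆ signedUpTo s A := by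
  classical
  induction s with
  | zero =>
    intro x hx
    rw [sm_zero, coe_singleton] at hx
    rw [mem_signedUpTo]
    refine ⟨fun _ => 0, by simp, ?_⟩
    rw [Set.mem_singleton_iff.1 hx]; simp
  | succ s ih =>
    intro x hx
    rw [sm_succ, mem_coe, Finset.mem_add] at hx
    obtain ⟨y, hy, b, hb, rfl⟩ := hx
    have h1 := ih (mem_coe.2 hy)
    rw [mem_signedUpTo] at h1 ⊢
    obtain ⟨l, hl, rfl⟩ := h1
    have add : ∀ (c : ZMod n) (t : ℤ), c ∈ A → t.natAbs ≤ 1 → b = t • c →
        ∃ l' : ZMod n → ℤ, ∑ a ∈ A, (l' a).natAbs ≤ s + 1 ∧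
          ∑ a ∈ A, (l a) • a + b = ∑ a ∈ A, (l' a) • a := by
      intro c t hc ht hbt
      refine ⟨fun a => l a + if a = c then t else 0, ?_, ?_⟩
      · have h2 : ∀ a ∈ A, (l a + if a = c then t else 0).natAbs ≤
            (l a).natAbs + if a = c then 1 else 0 := by
          intro a _
          split_ifs <;> omega
        refine (sum_le_sum h2).trans ?_
        rw [sum_add_distrib, sum_ite_eq', if_pos hc]
        omega
      · simp only [add_smul, ite_smul, zero_smul]
        rw [sum_add_distrib, sum_ite_eq', if_pos hc, hbt]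
    rw [mem_union, mem_union, Finset.mem_neg', mem_singleton] at hb
    rcases hb with (hb | hb) | hb
    · exact add b 1 hb (by norm_num) (one_zsmul b).symm
    · exact add (-b) (-1) hb (by norm_num) (by rw [neg_one_zsmul, neg_neg])
    · rw [hb, add_zero]
      exact ⟨l, by omega, rfl⟩

/-- a symmetric set containing `0` in a group of odd order has odd size -/
theorem odd_card_of_symm {G : Type*} [AddCommGroup G] [Fintype G] [DecidableEq G]
    (hodd : Odd (Fintype.card G)) {B : Finset G} (hB : ∀ x ∈ B, -x ∈ B)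
    (h0 : (0 : G) ∈ B) : Odd B.card := by
  have h1 : Even (B.erase 0).card := by
    apply even_card_of_symm hodd
    · intro x hx
      rw [mem_erase] at hx ⊢
      exact ⟨fun h => hx.1 (neg_eq_zero.1 h), hB x hx.2⟩
    · simp
  rw [card_erase_of_mem h0] at h1
  have : 0 < B.card := card_pos.2 ⟨0, h0⟩
  obtain ⟨k, hk⟩ := h1
  exact ⟨k, by omega⟩

theorem vpm_bdd (n h : ℕ) (hn : 0 < n) (hh : 0 < h) :
    BddAbove {x : ℤ | ∃ d e : ℕ, d * e = n ∧
      x = (2 * (((d : ℤ) - 2) / (2 * (h : ℤ))) + 1) * (e : ℤ)} := by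
  refine ⟨(n : ℤ), ?_⟩
  rintro x ⟨d, e, hde, rfl⟩
  have hd : 0 < d := Nat.pos_of_ne_zero (by rintro rfl; omega)
  have h1 : 2 * (((d : ℤ) - 2) / (2 * (h : ℤ))) + 1 ≤ d := by
    have h2 : ((d : ℤ) - 2) / (2 * (h : ℤ)) * (2 * (h : ℤ)) ≤ (d : ℤ) - 2 :=
      Int.ediv_mul_le _ (by positivity)
    by_cases h0 : 0 ≤ ((d : ℤ) - 2) / (2 * (h : ℤ))
    · have h3 : (1 : ℤ) ≤ h := by exact_mod_cast hh
      nlinarith
    · have : (1 : ℤ) ≤ d := by exact_mod_cast hd
      omega
  calc (2 * (((d : ℤ) - 2) / (2 * (h : ℤ))) + 1) * (e : ℤ) ≤ d * e :=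
        mul_le_mul_of_nonneg_right h1 (by positivity)
    _ = n := by exact_mod_cast hde

theorem le_vpm (n h : ℕ) (hn : 0 < n) (hh : 0 < h) (d e : ℕ) (hde : d * e = n) :
    (2 * (((d : ℤ) - 2) / (2 * (h : ℤ))) + 1) * (e : ℤ) ≤ vpm n h :=
  le_csSup (vpm_bdd n h hn hh) ⟨d, e, hde, rfl⟩

/-- The upper bound. -/
theorem card_le_vpm {n : ℕ} (hn : 0 < n) (s : ℕ) (hs : 0 < s) (A : Finset (ZMod n))
    (hA : signedUpTo s A ≠ Set.univ) : (A.card : ℤ) ≤ vpm n s := by
  classical
  haveI : NeZero n := ⟨hn.ne'⟩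
  set B := A ∪ (-A) ∪ {0} with hB
  have h0B : (0 : ZMod n) ∈ B := by rw [hB]; simp
  have hBn : B.Nonempty := ⟨0, h0B⟩
  have hBsymm : ∀ x ∈ B, -x ∈ B := by
    intro x hx
    rw [hB, mem_union, mem_union, Finset.mem_neg', mem_singleton] at hx ⊢
    rw [neg_neg, neg_eq_zero]
    tauto
  set C := sm s B with hC
  have hCne : C ≠ univ := by
    intro h
    apply hA
    rw [Set.eq_univ_iff_forall]
    intro x
    exact sm_subset A s (by rw [← hB, ← hC, h]; simp)
  set H := stab C with hH
  set e := (els H).card with he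
  have he0 : 0 < e := card_els_pos H
  have hkn := kneser_sm_full hBn H s hs hH
  rw [← hC, ← he] at hkn
  have hn' : Fintype.card (ZMod n) = n := ZMod.card n
  -- the complement of C
  have hcompl : e + C.card ≤ n := by
    have h1 : H ≤ stab (univ \ C) := by
      intro g hg
      apply mem_stab_of_forall
      intro x hx
      rw [mem_sdiff] at hx ⊢
      exact ⟨mem_univ _, fun h => hx.2 ((hg x).1 h)⟩
    have h2 : (univ \ C).Nonempty := by
      rw [sdiff_nonempty]
      intro h
      exact hCne (eq_univ_of_forall (fun x => h (mem_univ x)))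
    have h3 := Nat.le_of_dvd (card_pos.2 h2) (card_dvd_of_le_stab h1)
    have h4 := card_sdiff_add_card_eq_card (subset_univ C)
    rw [card_univ, hn'] at h4
    omega
  obtain ⟨d, hd⟩ := card_els_dvd H
  rw [hn', ← he] at hd
  set B' := B + els H with hB'
  obtain ⟨k, hk⟩ := card_dvd_of_le_stab (le_stab_add_els H B)
  rw [← he, ← hB'] at hk
  have hBB' : A.card ≤ B'.card := card_le_card (fun x hx => subset_add_els H B (by
    rw [hB]; exact mem_union_left _ (mem_union_left _ hx)))
  have hk0 : 0 < k := by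
    apply Nat.pos_of_ne_zero
    rintro rfl
    rw [mul_zero, card_eq_zero] at hk
    have := subset_add_els H B h0B
    rw [← hB', hk] at this
    exact notMem_empty _ this
  -- the main inequality
  have hmain : s * k + 2 ≤ d + s := by
    rw [hk] at hkn
    have h1 : e * (s * k + 2) ≤ e * (d + s) := by
      calc e * (s * k + 2) = s * (e * k) + e + e := by ring
        _ ≤ C.card + s * e + e := by omega
        _ ≤ n + s * e := by omega
        _ = e * (d + s) := by rw [hd]; ring
    exact Nat.le_of_mul_le_mul_left h1 he0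
  rcases Nat.even_or_odd n with hev | hodd
  · obtain ⟨m, hm⟩ := hev
    rcases Nat.lt_or_ge s 2 with hs2 | hs2
    · have hs1 : s = 1 := by omega
      have h1 : A.card + 1 ≤ n := by
        have h2 : C = B := by rw [hC, hs1, sm_one]
        rw [h2] at hcompl
        have h3 : A.card ≤ B.card := card_le_card (fun x hx => by
          rw [hB]; exact mem_union_left _ (mem_union_left _ hx))
        omega
      have h2 := le_vpm n s hn hs n 1 (mul_one n)
      rw [hs1] at h2 ⊢
      norm_num at h2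
      have h3 : ((n : ℤ) - 2) / 2 = m - 1 := by
        rw [hm]; push_cast; omega
      rw [h3] at h2
      omega
    · have h1 : 2 * k ≤ d := by nlinarith
      have h2 : 2 * A.card ≤ n := by
        calc 2 * A.card ≤ 2 * (e * k) := by rw [← hk]; omega
          _ = e * (2 * k) := by ring
          _ ≤ e * d := Nat.mul_le_mul_left _ h1
          _ = n := hd.symm
      have h3 := le_vpm n s hn hs 2 m (by omega)
      have h4 : (((2 : ℕ) : ℤ) - 2) / (2 * (s : ℤ)) = 0 := by norm_num
      rw [h4] at h3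
      omega
  · -- odd order: k is odd
    have hodd' : Odd (Fintype.card (ZMod n)) := by rw [hn']; exact hodd
    have hB'symm : ∀ x ∈ B', -x ∈ B' := by
      intro x hx
      rw [hB', Finset.mem_add] at hx ⊢
      obtain ⟨b, hb, g, hg, rfl⟩ := hx
      rw [mem_els] at hg
      exact ⟨-b, hBsymm b hb, -g, mem_els.2 (H.neg_mem hg), by abel⟩
    have h1 := odd_card_of_symm hodd' hB'symm (subset_add_els H B h0B)
    rw [hk] at h1
    obtain ⟨t, ht⟩ := (Nat.odd_mul.1 h1).2
    have h2 : 2 * s * t + 2 ≤ d := by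
      rw [ht] at hmain
      nlinarith
    have h3 := le_vpm n s hn hs d e (by rw [hd, mul_comm])
    have h4 : (t : ℤ) ≤ ((d : ℤ) - 2) / (2 * (s : ℤ)) := by
      rw [Int.le_ediv_iff_mul_le (by positivity)]
      have : ((2 * s * t + 2 : ℕ) : ℤ) ≤ d := by exact_mod_cast h2
      push_cast at this
      linarith
    calc (A.card : ℤ) ≤ (B'.card : ℤ) := by exact_mod_cast hBB'
      _ = (2 * (t : ℤ) + 1) * e := by rw [hk, ht]; push_cast; ring
      _ ≤ (2 * (((d : ℤ) - 2) / (2 * (s : ℤ))) + 1) * (e : ℤ) := by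
          apply mul_le_mul_of_nonneg_right _ (by positivity)
          linarith
      _ ≤ _ := h3

/-- The construction. -/
theorem exists_not_spanning {n : ℕ} (hn : 0 < n) (s : ℕ) (d e t : ℕ) (hde : d * e = n)
    (hd : 2 * s * t + 2 ≤ d) (htd : 2 * t < d) :
    ∃ A : Finset (ZMod n), A.card = (2 * t + 1) * e ∧ signedUpTo s A ≠ Set.univ := by
  classical
  haveI : NeZero n := ⟨hn.ne'⟩
  have hd0 : 0 < d := by omega
  set F : Finset (ZMod n) := univ.filter (fun y => y.val % d ≤ 2 * t) with hF
  refine ⟨F.image (fun y => y - (t : ZMod n)), ?_, ?_⟩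
  · rw [card_image_of_injective _ (sub_left_injective)]
    have h2 : F.card = ((range (2 * t + 1)) ×ˢ (range e)).card := by
      apply Finset.card_bij' (fun x _ => (x.val % d, x.val / d))
        (fun p _ => ((p.1 + d * p.2 : ℕ) : ZMod n))
      · intro x hx
        rw [hF, mem_filter] at hx
        rw [mem_product, mem_range, mem_range]
        refine ⟨by simp only; omega, ?_⟩
        rw [Nat.div_lt_iff_lt_mul hd0, mul_comm, hde]
        exact ZMod.val_lt x
      · rintro ⟨i, j⟩ hp
        rw [mem_product, mem_range, mem_range] at hp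
        have hp1 : i < 2 * t + 1 := hp.1
        have hp2 : j < e := hp.2
        have hlt : i + d * j < n := by
          have : d * (j + 1) ≤ d * e := Nat.mul_le_mul_left _ hp2
          rw [Nat.mul_add, mul_one, hde] at this
          omega
        rw [hF, mem_filter]
        refine ⟨mem_univ _, ?_⟩
        rw [ZMod.val_natCast_of_lt hlt, Nat.add_mul_mod_self_left,
          Nat.mod_eq_of_lt (show i < d by omega)]
        omega
      · intro x hx
        simp only
        rw [Nat.mod_add_div, ZMod.natCast_zmod_val]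
      · rintro ⟨i, j⟩ hp
        rw [mem_product, mem_range, mem_range] at hp
        have hp1 : i < 2 * t + 1 := hp.1
        have hp2 : j < e := hp.2
        have hlt : i + d * j < n := by
          have : d * (j + 1) ≤ d * e := Nat.mul_le_mul_left _ hp2
          rw [Nat.mul_add, mul_one, hde] at this
          omega
        simp only
        rw [ZMod.val_natCast_of_lt hlt, Nat.add_mul_mod_self_left,
          Nat.mod_eq_of_lt (show i < d by omega), Nat.add_mul_div_left _ _ hd0,
          Nat.div_eq_of_lt (show i < d by omega), zero_add]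
    rw [h2, card_product, card_range, card_range]
  · intro huniv
    have hmem : ((s * t + 1 : ℕ) : ZMod n) ∈ signedUpTo s (F.image (fun y => y - (t : ZMod n))) := by
      rw [huniv]; exact Set.mem_univ _
    rw [mem_signedUpTo] at hmem
    obtain ⟨l, hl, hx⟩ := hmem
    have hrep : ∀ a : ZMod n, ∃ j q : ℤ, a ∈ F.image (fun y => y - (t : ZMod n)) →
        |j| ≤ t ∧ a = ((j + d * q : ℤ) : ZMod n) := by
      intro a
      by_cases ha : a ∈ F.image (fun y => y - (t : ZMod n))
      · have ha' := ha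
        rw [mem_image] at ha'
        obtain ⟨y, hy, hya⟩ := ha'
        rw [hF, mem_filter] at hy
        obtain ⟨i, hi⟩ : ∃ i, i = y.val % d := ⟨_, rfl⟩
        obtain ⟨q₀, hq₀⟩ : ∃ q₀, q₀ = y.val / d := ⟨_, rfl⟩
        refine ⟨(i : ℤ) - t, (q₀ : ℤ), fun _ => ⟨?_, ?_⟩⟩
        · rw [abs_le]
          omega
        · have h1 : y = ((i + d * q₀ : ℕ) : ZMod n) := by
            rw [hi, hq₀, Nat.mod_add_div, ZMod.natCast_zmod_val]
          calc a = y - (t : ZMod n) := hya.symm
            _ = ((i + d * q₀ : ℕ) : ZMod n) - (t : ZMod n) := by rw [← h1]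
            _ = _ := by push_cast; ring
      · exact ⟨0, 0, fun h => absurd h ha⟩
    choose j q hjq using hrep
    set I := F.image (fun y => y - (t : ZMod n)) with hI
    have hsum : ∑ a ∈ I, (l a) • a = ((∑ a ∈ I, l a * j a + d * ∑ a ∈ I, l a * q a : ℤ) : ZMod n) := by
      rw [mul_sum, ← sum_add_distrib, Int.cast_sum]
      apply sum_congr rfl
      intro a ha
      have h1 := (hjq a ha).2
      calc l a • a = (l a : ZMod n) * a := zsmul_eq_mul _ _
        _ = (l a : ZMod n) * ((j a + d * q a : ℤ) : ZMod n) :=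
            congrArg (fun z => (l a : ZMod n) * z) h1
        _ = _ := by push_cast; ring
    rw [hsum] at hx
    have habs : |∑ a ∈ I, l a * j a| ≤ s * t := by
      calc |∑ a ∈ I, l a * j a| ≤ ∑ a ∈ I, |l a * j a| := abs_sum_le_sum_abs _ _
        _ ≤ ∑ a ∈ I, ((l a).natAbs : ℤ) * t := by
            apply sum_le_sum
            intro a ha
            rw [abs_mul, ← Int.natCast_natAbs]
            exact mul_le_mul_of_nonneg_left (hjq a ha).1 (by positivity)
        _ = ((∑ a ∈ I, (l a).natAbs : ℕ) : ℤ) * t := by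
            rw [← sum_mul]; push_cast; rfl
        _ ≤ s * t := by
            apply mul_le_mul_of_nonneg_right _ (by positivity)
            exact_mod_cast hl
    have h1 : (((s * t + 1 : ℕ) : ℤ) : ZMod n) =
        ((∑ a ∈ I, l a * j a + d * ∑ a ∈ I, l a * q a : ℤ) : ZMod n) := by
      rw [← hx]; push_cast; rfl
    rw [ZMod.intCast_eq_intCast_iff_dvd_sub] at h1
    have h2 : (d : ℤ) ∣ n := Int.natCast_dvd_natCast.2 ⟨e, hde.symm⟩
    have h3 : (d : ℤ) ∣ (∑ a ∈ I, l a * j a) - ((s * t + 1 : ℕ) : ℤ) := by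
      have h4 := h2.trans h1
      have h5 : (d : ℤ) ∣ d * ∑ a ∈ I, l a * q a := dvd_mul_right _ _
      have h6 := dvd_sub h4 h5
      have h7 : (∑ a ∈ I, l a * j a + d * ∑ a ∈ I, l a * q a) - ((s * t + 1 : ℕ) : ℤ) -
          d * ∑ a ∈ I, l a * q a = (∑ a ∈ I, l a * j a) - ((s * t + 1 : ℕ) : ℤ) := by ring
      rwa [h7] at h6
    rw [abs_le] at habs
    obtain ⟨c, hc⟩ := h3
    push_cast at hc
    have hd' : 2 * ((s : ℤ) * t) + 2 ≤ d := by
      have : ((2 * s * t + 2 : ℕ) : ℤ) ≤ d := by exact_mod_cast hd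
      push_cast at this
      linarith
    have h8 : (d : ℤ) * c < 0 := by linarith
    have h9 : -(d : ℤ) < d * c := by linarith
    have hd1 : (0 : ℤ) < d := by exact_mod_cast hd0
    have h10 : c < 0 := by
      by_contra hcon
      push Not at hcon
      have := mul_nonneg hd1.le hcon
      linarith
    have h11 : (d : ℤ) * c ≤ d * (-1) := mul_le_mul_of_nonneg_left (by omega) hd1.le
    linarith

/-- **The signed `[0,s]`-critical number.** -/
theorem chi_eq (n s : ℕ) (hn : 0 < n) (hs : 0 < s) : (chi n s : ℤ) = vpm n s + 1 := by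
  classical
  haveI : NeZero n := ⟨hn.ne'⟩
  set T := {m : ℕ | ∀ A : Finset (ZMod n), m ≤ A.card → signedUpTo s A = Set.univ} with hT
  -- the value is at least -1
  have hv : -1 ≤ vpm n s := by
    by_cases h1 : n = 1
    · have h2 := le_vpm n s hn hs 1 1 (by omega)
      have h3 : (((1 : ℕ) : ℤ) - 2) / (2 * (s : ℤ)) = -1 := by
        have : ((1 : ℕ) : ℤ) - 2 = -1 := by norm_num
        rw [this]
        exact Int.ediv_eq_neg_one_of_neg_of_le (by norm_num) (by
          have : (1 : ℤ) ≤ s := by exact_mod_cast hs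
          linarith)
      rw [h3] at h2
      norm_num at h2
      exact h2
    · have h2 := le_vpm n s hn hs n 1 (by omega)
      have h3 : 0 ≤ ((n : ℤ) - 2) / (2 * (s : ℤ)) := by
        apply Int.ediv_nonneg
        · have : 2 ≤ n := by omega
          have : (2 : ℤ) ≤ n := by exact_mod_cast this
          linarith
        · positivity
      push_cast at h2
      linarith
  obtain ⟨N, hN⟩ := Int.eq_ofNat_of_zero_le (show 0 ≤ vpm n s + 1 by linarith)
  have hNT : N ∈ T := by
    intro A hA
    by_contra hcon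
    have h1 := card_le_vpm hn s hs A hcon
    have h2 : ((N : ℕ) : ℤ) ≤ A.card := by exact_mod_cast hA
    omega
  have hmin : ∀ m ∈ T, N ≤ m := by
    intro m hm
    have h1 : vpm n s ≤ (m : ℤ) - 1 := by
      apply csSup_le
      · exact ⟨_, n, 1, mul_one n, rfl⟩
      · rintro x ⟨d, e, hde, rfl⟩
        have hd0 : 0 < d := Nat.pos_of_ne_zero (by rintro rfl; omega)
        have he0 : 0 < e := Nat.pos_of_ne_zero (by rintro rfl; omega)
        have he1 : (1 : ℤ) ≤ e := by exact_mod_cast he0
        by_cases h0 : ((d : ℤ) - 2) / (2 * (s : ℤ)) < 0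
        · have h2 : (2 * (((d : ℤ) - 2) / (2 * (s : ℤ))) + 1) * (e : ℤ) ≤ -1 * e :=
            mul_le_mul_of_nonneg_right (by omega) (by positivity)
          have h3 : (0 : ℤ) ≤ m := by positivity
          linarith
        · push Not at h0
          obtain ⟨t, ht⟩ := Int.eq_ofNat_of_zero_le h0
          have h2 : (t : ℤ) * (2 * (s : ℤ)) ≤ (d : ℤ) - 2 := by
            rw [← Int.le_ediv_iff_mul_le (by positivity)]
            exact ht.ge
          have h3 : 2 * s * t + 2 ≤ d := by
            have : ((2 * s * t + 2 : ℕ) : ℤ) ≤ d := by push_cast; linarith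
            exact_mod_cast this
          have h4 : 2 * t < d := by nlinarith
          obtain ⟨A, hAc, hA⟩ := exists_not_spanning hn s d e t hde h3 h4
          have h5 : A.card < m := by
            by_contra hcon
            push Not at hcon
            exact hA (hm A hcon)
          rw [hAc] at h5
          rw [ht]
          have h6 : (((2 * t + 1) * e : ℕ) : ℤ) < m := by exact_mod_cast h5
          push_cast at h6 ⊢
          linarith
    have : (N : ℤ) ≤ m := by
      have h3 : ((N : ℕ) : ℤ) = vpm n s + 1 := hN.symm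
      linarith
    exact_mod_cast this
  have h1 : chi n s = N := le_antisymm (Nat.sInf_le hNT) (hmin _ (Nat.sInf_mem ⟨N, hNT⟩))
  rw [h1, hN]

end Pool.Agent.Q248.KN
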